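import Mathlib
import Pool.Agent.Helper318.MM.Core

set_option autoImplicit false

open MvPolynomial MeasureTheory Finset

namespace Pool.Agent.Helper623.MM

open Pool.Agent.Helper318.MM

/-- number of coordinates with exponent `e` -/
def cnt {n : ℕ} (e : ℕ) (α : Fin n →₀ ℕ) : ℕ := (univ.filter (fun i => α i = e)).card

theorem general {n : ℕ} (f : MvPolynomial (Fin n) ℂ) (e s k M : ℕ) (he : 0 < e) (hk : 0 < k)
    (hdeg : ∀ α ∈ f.support, ∀ i, α i ≤ e)
    (hcount : ∀ α ∈ f.support, cnt e α ≤ s)
    (hex : ∃ α ∈ f.support, cnt e α = s)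
    (hlin : ∀ α ∈ f.support, cnt e α = s → ∑ i ∈ univ.filter (fun i => α i ≠ e), α i ≤ 1)
    (hzero : ∀ m : ℕ, M ≤ m →
        ∫ x in Set.Icc (0 : Fin n → ℝ) 1,
          (MvPolynomial.eval (fun i => ((x i : ℝ) : ℂ)) f) ^ (k * m) = 0) : False := by
  classical
  -- exponents equal to e on a set of size s
  have hset : ∀ S ∈ powersetCard s (univ : Finset (Fin n)), ∀ α ∈ f.support, (∀ i ∈ S, α i = e) →
      univ.filter (fun i => α i = e) = S := by
    intro S hS α hα h
    rw [mem_powersetCard_univ] at hS
    symm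
    apply Finset.eq_of_subset_of_card_le
    · intro i hi
      rw [mem_filter]; exact ⟨mem_univ _, h i hi⟩
    · rw [hS]; exact hcount α hα
  have hlinS : ∀ S ∈ powersetCard s (univ : Finset (Fin n)), ∀ α ∈ f.support, (∀ i ∈ S, α i = e) →
      ∑ i ∈ Sᶜ, α i ≤ 1 := by
    intro S hS α hα h
    have h1 := hset S hS α hα h
    have h2 : cnt e α = s := by
      unfold cnt; rw [h1]; exact (mem_powersetCard_univ.1 hS)
    have h3 := hlin α hα h2
    have h4 : univ.filter (fun i => α i ≠ e) = Sᶜ := by
      rw [← h1, Finset.compl_filter]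
    rw [h4] at h3
    exact h3
  set T : Finset (Fin n) → Finset (Fin n) := fun S =>
    Sᶜ.filter (fun i => f.coeff (eS e S + Finsupp.single i 1) ≠ 0) with hTdef
  have hST : ∀ S, Disjoint S (T S) := by
    intro S
    rw [Finset.disjoint_left]
    intro i hi hi'
    rw [hTdef, mem_filter] at hi'
    exact (mem_compl.1 hi'.1) hi
  -- if T S nonempty then e ≥ 2
  have hTe : ∀ S ∈ powersetCard s (univ : Finset (Fin n)), (T S).card ≠ 0 → 2 ≤ e := by
    intro S hS hc
    obtain ⟨i, hi⟩ := Finset.card_ne_zero.1 hc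
    rw [hTdef, mem_filter] at hi
    have h1 := hset S hS _ (mem_support_iff.2 hi.2) (by
      intro j hj
      rw [Finsupp.add_apply, eS_apply, if_pos hj, Finsupp.single_eq_of_ne, add_zero]
      rintro rfl
      exact (mem_compl.1 hi.1) hj)
    by_contra hcon
    have he1 : e = 1 := by omega
    have h2 : i ∈ univ.filter (fun j => (eS e S + Finsupp.single i 1 : Fin n →₀ ℕ) j = e) := by
      rw [mem_filter]
      refine ⟨mem_univ _, ?_⟩
      rw [Finsupp.add_apply, eS_apply, if_neg (mem_compl.1 hi.1), Finsupp.single_eq_same, he1]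
    rw [h1] at h2
    exact (mem_compl.1 hi.1) h2
  -- the set of relevant S
  set 𝒮 : Finset (Finset (Fin n)) := (powersetCard s (univ : Finset (Fin n))).filter
    (fun S => f.coeff (eS e S) ≠ 0 ∨ (T S).card ≠ 0) with h𝒮
  have h𝒮ne : 𝒮.Nonempty := by
    obtain ⟨α, hα, hαs⟩ := hex
    refine ⟨univ.filter (fun i => α i = e), ?_⟩
    set S := univ.filter (fun i => α i = e) with hS
    rw [h𝒮, mem_filter]
    have hSc : S ∈ powersetCard s (univ : Finset (Fin n)) := mem_powersetCard_univ.2 hαs
    refine ⟨hSc, ?_⟩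
    have hl := hlinS S hSc α hα (by intro i hi; rw [hS, mem_filter] at hi; exact hi.2)
    by_cases hz : ∑ i ∈ Sᶜ, α i = 0
    · left
      have : eS e S = α := by
        ext i
        rw [eS_apply]
        by_cases hi : i ∈ S
        · rw [if_pos hi]; rw [hS, mem_filter] at hi; exact hi.2.symm
        · rw [if_neg hi]
          exact ((Finset.sum_eq_zero_iff.1 hz) i (mem_compl.2 hi)).symm
      rw [this]; exact mem_support_iff.1 hα
    · right
      obtain ⟨j, hj, hj0⟩ := Finset.exists_ne_zero_of_sum_ne_zero hz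
      have h1 : α j + ∑ i ∈ Sᶜ.erase j, α i = ∑ i ∈ Sᶜ, α i := Finset.add_sum_erase _ _ hj
      have : eS e S + Finsupp.single j 1 = α := by
        ext i
        rw [Finsupp.add_apply, eS_apply]
        by_cases hi : i ∈ S
        · rw [if_pos hi, Finsupp.single_eq_of_ne (by rintro rfl; exact (mem_compl.1 hj) hi)]
          rw [hS, mem_filter] at hi; rw [hi.2, add_zero]
        · rw [if_neg hi, zero_add]
          by_cases hij : i = j
          · subst hij
            rw [Finsupp.single_eq_same]
            omega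
          · rw [Finsupp.single_eq_of_ne hij]
            have hic : i ∈ Sᶜ.erase j := mem_erase.2 ⟨hij, mem_compl.2 hi⟩
            have h2 : α i ≤ ∑ i ∈ Sᶜ.erase j, α i :=
              Finset.single_le_sum (f := fun i => α i) (fun _ _ => Nat.zero_le _) hic
            omega
      rw [Finset.card_ne_zero]
      refine ⟨j, ?_⟩
      rw [hTdef, mem_filter]
      refine ⟨hj, ?_⟩
      rw [this]; exact mem_support_iff.1 hα
  -- the integer that has to vanish mod p
  set D : Finset (Fin n) → ℕ := fun S => ∏ j ∈ range (T S).card, (e * (j + 1) - 1) with hD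
  set Q : Finset (Fin n) → ℕ := fun S => (T S).card.factorial * e ^ (T S).card with hQ
  have hDpos : ∀ S ∈ powersetCard s (univ : Finset (Fin n)), 0 < D S := by
    intro S hS
    rw [hD]
    refine Finset.prod_pos (fun j hj => ?_)
    have h1 : (T S).card ≠ 0 := by
      rw [mem_range] at hj; omega
    have h2 := hTe S hS h1
    have : 2 * 1 ≤ e * (j + 1) := Nat.mul_le_mul h2 (by omega)
    omega
  set NN : ℕ := ∑ S ∈ 𝒮, Q S * ∏ S' ∈ 𝒮.erase S, D S' with hNN
  have hNNpos : 0 < NN := by
    rw [hNN]
    refine Finset.sum_pos (fun S hS => ?_) h𝒮ne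
    refine Nat.mul_pos ?_ ?_
    · rw [hQ]; exact Nat.mul_pos (Nat.factorial_pos _) (pow_pos he _)
    · refine Finset.prod_pos (fun S' hS' => ?_)
      have := mem_of_mem_erase hS'
      rw [h𝒮, mem_filter] at this
      exact hDpos S' this.1
  -- the set V
  set V : Finset ℂ := f.support.image (fun α => f.coeff α) ∪
    ((powersetCard s (univ : Finset (Fin n))) ×ˢ (univ : Finset (Finset (Fin n)))).image
      (fun q => f.coeff (eS e q.1) + ∑ i ∈ q.2, f.coeff (eS e q.1 + Finsupp.single i 1)) with hV
  obtain ⟨p, hp, hpN, hpe', R, φ, hφ'⟩ := exists_split V (e * k) (Nat.mul_pos he hk)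
    (NN + 2 * n + 4 + e * k * (M + 1))
  have hpe : e ∣ p - 1 := dvd_trans (dvd_mul_right e k) hpe'
  obtain ⟨m', hm'⟩ := hpe'
  have hMm' : M ≤ m' := by
    by_contra hlt
    push Not at hlt
    have h1 : e * k * m' ≤ e * k * (M + 1) := Nat.mul_le_mul_left _ (by omega)
    omega
  have : Fact p.Prime := ⟨hp⟩
  set m := (p - 1) / e with hm
  have hem : e * m = p - 1 := Nat.mul_div_cancel' hpe
  have hmk : m = k * m' := by
    have h1 : e * m = e * (k * m') := by rw [hem, hm']; ring
    exact Nat.eq_of_mul_eq_mul_left he h1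
  have hdivek : (p - 1) / (e * k) = m' := by
    rw [hm']; exact Nat.mul_div_cancel_left _ (Nat.mul_pos he hk)
  have hφ : ∀ v ∈ V, ∃ hv : v ∈ R, v ≠ 0 → φ ⟨v, hv⟩ ^ m = 1 := by
    intro v hv
    obtain ⟨hv1, hv2⟩ := hφ' v hv
    refine ⟨hv1, fun h => ?_⟩
    have h3 := hv2 h
    rw [hdivek] at h3
    rw [hmk, mul_comm, pow_mul, h3, one_pow]
  have hm0 : 0 < m := by
    rcases Nat.eq_zero_or_pos m with h | h
    · rw [h, mul_zero] at hem; omega
    · exact h
  -- polynomial over R
  have hcoef : ∀ α, f.coeff α ∈ R := by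
    intro α
    by_cases hα : α ∈ f.support
    · exact (hφ _ (by rw [hV]; exact mem_union_left _ (mem_image_of_mem _ hα))).1
    · rw [notMem_support_iff.1 hα]; exact R.zero_mem
  obtain ⟨g, hg⟩ : f ∈ Set.range (MvPolynomial.map R.subtype) := by
    rw [mem_range_map_iff_coeffs_subset]
    intro x hx
    rw [Finset.mem_coe, MvPolynomial.mem_coeffs_iff] at hx
    obtain ⟨α, _, rfl⟩ := hx
    exact ⟨⟨_, hcoef α⟩, rfl⟩
  have hinj : Function.Injective R.subtype := R.subtype_injective
  have hgc : ∀ α, ((g.coeff α : R) : ℂ) = f.coeff α := by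
    intro α; rw [← hg, coeff_map]; rfl
  have hgm : MvPolynomial.map R.subtype (g ^ m) = f ^ m := by rw [map_pow, hg]
  have hsupp : (g ^ m).support = (f ^ m).support := by
    rw [← hgm, support_map_of_injective _ hinj]
  -- degree facts for f^m
  have hdegm : ∀ α ∈ (g ^ m).support, ∀ i, α i ≤ p - 1 := by
    intro α hα i
    rw [hsupp] at hα
    have h1 := weight_pow {i} e f (by
      intro β hβ; rw [sum_singleton]; exact hdeg β hβ i) m α hα
    rw [sum_singleton] at h1
    rw [← hem, mul_comm]; exact h1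
  have hcountm : ∀ α ∈ (g ^ m).support, (univ.filter (fun i => α i = p - 1)).card ≤ s := by
    intro α hα
    rw [hsupp] at hα
    by_contra hcon
    push Not at hcon
    set W := univ.filter (fun i => α i = p - 1) with hW
    have hWpos : 0 < W.card := by omega
    have h1 := weight_pow W (e * W.card - 1) f (by
      intro β hβ
      have hle : ∑ i ∈ W, β i ≤ e * W.card := by
        calc ∑ i ∈ W, β i ≤ ∑ _i ∈ W, e := Finset.sum_le_sum (fun i _ => hdeg β hβ i)
          _ = e * W.card := by rw [sum_const, smul_eq_mul, mul_comm]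
      have hne : ∑ i ∈ W, β i ≠ e * W.card := by
        intro heq
        have h2 : ∑ i ∈ W, β i = ∑ _i ∈ W, e := by
          rw [heq, sum_const, smul_eq_mul, mul_comm]
        have h3 := (Finset.sum_eq_sum_iff_of_le (fun i _ => hdeg β hβ i)).1 h2
        have h4 : W ⊆ univ.filter (fun i => β i = e) := by
          intro i hi
          rw [mem_filter]; exact ⟨mem_univ _, h3 i hi⟩
        have h5 := Finset.card_le_card h4
        have h6 := hcount β hβ
        unfold cnt at h6
        omega
      omega) m α hα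
    have h2 : ∑ i ∈ W, α i = (p - 1) * W.card := by
      rw [Finset.sum_congr rfl (fun i hi => (mem_filter.1 hi).2), sum_const, smul_eq_mul, mul_comm]
    rw [h2, ← hem] at h1
    have h3 : 1 ≤ e * W.card := Nat.mul_pos he hWpos
    have h4 : m * (e * W.card - 1) < m * (e * W.card) := by
      apply Nat.mul_lt_mul_of_pos_left _ hm0
      omega
    have h5 : e * m * W.card = m * (e * W.card) := by ring
    omega
  have h0 : ∑ α ∈ (g ^ m).support, (((g ^ m).coeff α : R) : ℂ) * ∏ i, ((α i : ℂ) + 1)⁻¹ = 0 := by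
    have h1 := integral_eq (f ^ m)
    simp only [map_pow] at h1
    rw [hmk, hzero m' hMm'] at h1
    rw [← hmk] at h1
    rw [hsupp, h1]
    refine Finset.sum_congr rfl (fun α _ => ?_)
    rw [← hgm, coeff_map]; rfl
  have hpole := pole_identity R φ (g ^ m) s hdegm hcountm h0
  rw [map_pow] at hpole
  set F := MvPolynomial.map φ g with hF
  have hFc : ∀ α, F.coeff α = φ (g.coeff α) := by intro α; rw [hF, coeff_map]
  have hFsupp : ∀ α, F.coeff α ≠ 0 → α ∈ f.support := by
    intro α h
    rw [mem_support_iff, ← hgc]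
    intro h2
    apply h
    have h3 : g.coeff α = 0 := by exact_mod_cast h2
    rw [hFc, h3, map_zero]
  -- facts on values
  have hval : ∀ S ∈ powersetCard s (univ : Finset (Fin n)), ∀ U : Finset (Fin n),
      (f.coeff (eS e S) + ∑ i ∈ U, f.coeff (eS e S + Finsupp.single i 1)) ≠ 0 →
      (F.coeff (eS e S) + ∑ i ∈ U, F.coeff (eS e S + Finsupp.single i 1)) ^ m = 1 := by
    intro S hS U hne
    obtain ⟨hv, hv1⟩ := hφ (f.coeff (eS e S) + ∑ i ∈ U, f.coeff (eS e S + Finsupp.single i 1)) (by
      rw [hV]
      apply mem_union_right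
      rw [mem_image]
      exact ⟨(S, U), mem_product.2 ⟨hS, mem_univ _⟩, rfl⟩)
    have h1 := hv1 hne
    have h2 : (⟨_, hv⟩ : R) = g.coeff (eS e S) + ∑ i ∈ U, g.coeff (eS e S + Finsupp.single i 1) := by
      apply Subtype.ext
      push_cast
      simp only [hgc]
    rw [h2, map_add, map_sum] at h1
    simp only [hFc]
    exact h1
  have hcoefne : ∀ α ∈ f.support, F.coeff α ≠ 0 := by
    intro α hα h
    obtain ⟨hv, hv1⟩ := hφ (f.coeff α) (by
      rw [hV]; exact mem_union_left _ (mem_image_of_mem _ hα))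
    have h1 := hv1 (mem_support_iff.1 hα)
    have h2 : (⟨_, hv⟩ : R) = g.coeff α := Subtype.ext (hgc α).symm
    rw [h2, ← hFc, h, zero_pow (by omega)] at h1
    exact zero_ne_one h1
  have heF : (e : ZMod p) * m = -1 := by
    have h1 : ((e * m : ℕ) : ZMod p) = ((p - 1 : ℕ) : ZMod p) := by rw [hem]
    push_cast [Nat.cast_sub hp.one_lt.le] at h1
    rw [h1]; simp
  have hFdeg : ∀ α ∈ F.support, ∀ i, α i ≤ e := fun α hα i => hdeg α (hFsupp α (mem_support_iff.1 hα)) i
  -- each face
  have hface : ∀ S ∈ powersetCard s (univ : Finset (Fin n)), S ∈ 𝒮 →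
      (D S : ZMod p) * EP (p - 1) S (F ^ m) = (Q S : ZMod p) := by
    intro S hS hS𝒮
    have hcardT : (T S).card ≤ n := by
      have := Finset.card_le_univ (T S); simpa using this
    have hsmall : ∀ j : ℕ, 0 < j → j ≤ m + (T S).card → (j : ZMod p) ≠ 0 := by
      intro j hj hj' h
      rw [ZMod.natCast_eq_zero_iff] at h
      have h1 := Nat.le_of_dvd hj h
      by_cases hc : (T S).card = 0
      · rw [hc] at hj'
        have : m ≤ e * m := Nat.le_mul_of_pos_left _ he
        omega
      · have h2 := hTe S hS hc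
        have : 2 * m ≤ e * m := Nat.mul_le_mul_right _ h2
        omega
    have hpowU : ∀ U ⊆ T S, (F.coeff (eS e S) + ∑ i ∈ U, F.coeff (eS e S + Finsupp.single i 1)) ≠ 0 →
        (F.coeff (eS e S) + ∑ i ∈ U, F.coeff (eS e S + Finsupp.single i 1)) ^ m = 1 := by
      intro U _ hne
      apply hval S hS U
      intro h
      apply hne
      have h2 : (g.coeff (eS e S) + ∑ i ∈ U, g.coeff (eS e S + Finsupp.single i 1)) = 0 := by
        apply Subtype.ext
        push_cast
        simp only [hgc]
        exact h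
      simp only [hFc]
      rw [← map_sum, ← map_add, h2, map_zero]
    have hres := face_eval S (T S) (hST S) e m hm0 heF F hFdeg
      (fun α hα h => hlinS S hS α (hFsupp α (mem_support_iff.1 hα)) h)
      (by
        intro i hi hne
        rw [hTdef, mem_filter]
        exact ⟨mem_compl.2 hi, mem_support_iff.1 (hFsupp _ hne)⟩)
      (by
        intro i hi
        rw [hTdef, mem_filter] at hi
        exact hcoefne _ (mem_support_iff.2 hi.2))
      hsmall hpowU
      (by
        intro hc
        rw [h𝒮, mem_filter] at hS𝒮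
        rcases hS𝒮.2 with h | h
        · exact hcoefne _ (mem_support_iff.2 h)
        · exact absurd hc h)
    rw [hem] at hres
    rw [hQ]
    rw [← hres]
    congr 1
    rw [hD]
    push_cast
    refine Finset.prod_congr rfl (fun j hj => ?_)
    have h1 : (T S).card ≠ 0 := by rw [mem_range] at hj; omega
    have h2 := hTe S hS h1
    have h3 : 1 ≤ e * (j + 1) := Nat.mul_pos he (by omega)
    rw [Nat.cast_sub h3]
    push_cast
    ring
  have hface0 : ∀ S ∈ powersetCard s (univ : Finset (Fin n)), S ∉ 𝒮 → EP (p - 1) S (F ^ m) = 0 := by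
    intro S hS hS𝒮
    have h1 : f.coeff (eS e S) = 0 ∧ (T S).card = 0 := by
      rw [h𝒮, mem_filter] at hS𝒮
      by_contra hcon
      apply hS𝒮
      refine ⟨hS, ?_⟩
      by_contra h
      push Not at h
      exact hcon h
    rw [← hem, EP_pow_top S e m F hFdeg 0 ?_]
    · rw [zero_pow (by omega), map_zero]
    · intro α
      rw [coeff_zero]
      symm
      rw [ite_eq_right_iff]
      intro h
      by_contra hne
      have hα := hFsupp α hne
      have hsum := hlinS S hS α hα h
      by_cases hz : ∑ i ∈ Sᶜ, α i = 0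
      · have : eS e S = α := by
          ext i
          rw [eS_apply]
          by_cases hi : i ∈ S
          · rw [if_pos hi, h i hi]
          · rw [if_neg hi]
            exact ((Finset.sum_eq_zero_iff.1 hz) i (mem_compl.2 hi)).symm
        rw [this] at h1
        exact (mem_support_iff.1 hα) h1.1
      · obtain ⟨j, hj, hj0⟩ := Finset.exists_ne_zero_of_sum_ne_zero hz
        have h1' : α j + ∑ i ∈ Sᶜ.erase j, α i = ∑ i ∈ Sᶜ, α i := Finset.add_sum_erase _ _ hj
        have h3 : eS e S + Finsupp.single j 1 = α := by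
          ext i
          rw [Finsupp.add_apply, eS_apply]
          by_cases hi : i ∈ S
          · rw [if_pos hi, Finsupp.single_eq_of_ne (by rintro rfl; exact (mem_compl.1 hj) hi)]
            rw [h i hi, add_zero]
          · rw [if_neg hi, zero_add]
            by_cases hij : i = j
            · subst hij
              rw [Finsupp.single_eq_same]
              omega
            · rw [Finsupp.single_eq_of_ne hij]
              have hic : i ∈ Sᶜ.erase j := mem_erase.2 ⟨hij, mem_compl.2 hi⟩
              have h2 : α i ≤ ∑ i ∈ Sᶜ.erase j, α i :=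
                Finset.single_le_sum (f := fun i => α i) (fun _ _ => Nat.zero_le _) hic
              omega
        have h4 : j ∈ T S := by
          rw [hTdef, mem_filter]
          refine ⟨hj, ?_⟩
          rw [h3]; exact mem_support_iff.1 hα
        rw [Finset.card_eq_zero] at h1
        rw [h1.2] at h4
        exact absurd h4 (Finset.notMem_empty _)
  -- sum
  have hsum : ∑ S ∈ 𝒮, EP (p - 1) S (F ^ m) = 0 := by
    rw [← hpole, h𝒮, Finset.sum_filter]
    refine Finset.sum_congr rfl (fun S hS => ?_)
    by_cases h : f.coeff (eS e S) ≠ 0 ∨ (T S).card ≠ 0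
    · rw [if_pos h]
    · rw [if_neg h, hface0 S hS]
      rw [h𝒮, mem_filter]
      exact fun h' => h h'.2
  have hfin : (NN : ZMod p) = 0 := by
    have h1 : (NN : ZMod p) = ∑ S ∈ 𝒮, (∏ S' ∈ 𝒮, (D S' : ZMod p)) * EP (p - 1) S (F ^ m) := by
      rw [hNN]
      push_cast
      refine Finset.sum_congr rfl (fun S hS => ?_)
      have hS2 := hS
      rw [h𝒮, mem_filter] at hS2
      rw [← hface S hS2.1 hS, ← Finset.mul_prod_erase 𝒮 (fun S' => (D S' : ZMod p)) hS]
      ring
    rw [h1, ← Finset.mul_sum, hsum, mul_zero]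
  rw [ZMod.natCast_eq_zero_iff] at hfin
  have := Nat.le_of_dvd hNNpos hfin
  omega

end Pool.Agent.Helper623.MM
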